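import Pool.Agent.W859.AK.Stm

/-! AK-NUM and AK-SHIFT: numerical iteration, affine change of the heights. -/

set_option autoImplicit false

open Finset

namespace Pool.Agent.W790.AK
open Pool.Agent.W904.AK Pool.Agent.W859.AK

/-- The numerical chain. -/
theorem chain : Good 2 (1710527 / 1000000) ∧ Good (1710527 / 1000000) (1679162 / 1000000) ∧
    Good (1679162 / 1000000) (1675383 / 1000000) ∧ Good (1675383 / 1000000) (1674922 / 1000000) ∧
    Good (1674922 / 1000000) (1674866 / 1000000) ∧ Good (1674866 / 1000000) (167486 / 100000) := by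
  refine ⟨?_, ?_, ?_, ?_, ?_, ?_⟩ <;> · unfold Good; norm_num

/-- One step. -/
theorem step (hSTEP : S_STEP) (hMM : S_MINIMAX) {b c : ℝ} (hg : Good b c)
    (h : ∃ T w, Oracle b T w) : ∃ T w, Oracle c T w := by
  obtain ⟨T, w, hO⟩ := h
  obtain ⟨T', hT'⟩ := hSTEP b T w hO c hg
  obtain ⟨w', hw'⟩ := hMM c T' (by linarith [hg.2.2.1]) hT'
  exact ⟨T', w', hw'⟩

theorem final (hSTEP : S_STEP) (hMM : S_MINIMAX) (hB : S_BASE) :
    ∃ T, MaxForm (167486 / 100000) T := by
  obtain ⟨g1, g2, g3, g4, g5, g6⟩ := chain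
  obtain ⟨T, w, hO⟩ := step hSTEP hMM g5 (step hSTEP hMM g4 (step hSTEP hMM g3
    (step hSTEP hMM g2 (step hSTEP hMM g1 ⟨_, _, hB⟩))))
  exact hSTEP _ T w hO _ g6

theorem finalSD (hSTEP : S_STEP) (hMM : S_MINIMAX) (hB : S_BASE) (hP : S_PROJ) :
    SDc (167486 / 100000) := by
  obtain ⟨T, hT⟩ := final hSTEP hMM hB
  exact hP _ T (by norm_num) hT

/-- AK-SHIFT -/
theorem SHIFT : S_SHIFT := by
  classical
  intro b T w hO N
  set v : ℚ := N + 1 + ∑ t ∈ T, |t| with hv
  have hinj' : ∀ a ∈ T, ∀ c ∈ T, a + v = c + v → a = c := fun a _ c _ h => add_right_cancel h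
  refine ⟨T.image (fun t => t + v), fun t => w (t - v), ⟨?_, ?_, ?_⟩, ?_⟩
  · intro t ht
    obtain ⟨a, ha, rfl⟩ := Finset.mem_image.1 ht
    simp only [add_sub_cancel_right]
    exact hO.1 a ha
  · rw [Finset.sum_image hinj']
    simp only [add_sub_cancel_right]
    exact hO.2.1
  · intro Ω _ W _ _ p X D hp hD
    rw [Finset.sum_image hinj']
    simp only [add_sub_cancel_right]
    have h1 := hO.2.2 Ω W p (fun x => X x + v • D x) D hp (by
      intro x y hx hy hxy
      have h2 := hD x y hx hy hxy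
      simp only at h2 ⊢
      rw [h2, hxy])
    refine h1.trans (le_of_eq ?_)
    congr 1
    refine Finset.sum_congr rfl fun t _ => ?_
    have h3 : (fun x => X x + v • D x + t • D x) = fun x => X x + (t + v) • D x := by
      funext x
      rw [add_smul t v, add_assoc, add_comm (v • D x)]
    rw [h3]
  · intro t ht
    obtain ⟨a, ha, rfl⟩ := Finset.mem_image.1 ht
    have h1 : |a| ≤ ∑ t ∈ T, |t| := Finset.single_le_sum (fun t _ => abs_nonneg t) ha
    have h2 := neg_abs_le a
    rw [hv]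
    linarith

end Pool.Agent.W790.AK
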